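import Pool.Agent.KS6_59.ELD.Llt
import Pool.Agent.KS6_59.ELD.Dat
import Pool.Graph.R_pool_sql_team_seeded_63374d34.Results.MP_788af2_nt.MomentsOverAllCurves

/-!
# Average rank: the exact proportion of the elliptic curves whose Birch and Swinnerton-Dyer product looks like rank `r`

Fix `γ > π/2` and let `w(u) = cos(γu) / Γ(1 + u)`. For an elliptic curve `E : y² = x³ + A x + B` over `ℚ` let

`P_T(E) = ∏_{p ∤ 6Δ} (N_p / p)^{w(log p / T)}`, `N_p = #E(𝔽_p)`,

the product of Birch and Swinnerton-Dyer with a smooth weight in place of the sharp cut-off. For every single curve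
`c T^r ≤ P_T(E) ≤ C T^r` for large `T`, with `r` the order of `L(E, s)` at `s = 1`, without any hypothesis on the
zeros (library, `MomentsOverAllCurves`, part A). The finer prediction of the problem is that the curves of rank `0` and
`1` have density `1/2` each and that those of rank `≥ 2` have density `0`.

Let `E` run over all the elliptic curves over `ℚ` (the minimal pairs `(A, B)` of the problem), ordered by the height. It
is known (same source) that `P_T(E) = T^{1/2 + o(1)}` for almost all of them. Here the proportion of the curves with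
`P_T(E)` of ANY other order of magnitude is determined, as an exact asymptotic formula and not only up to factors
`T^{o(1)}`: for every real `r` and `0 < a < b` the proportion of the curves with

`a T^r ≤ P_T(E) ≤ b T^r` is asymptotically `a_k κ₁^k κ₂^{k²} ∫_a^b t^{-k-1} dt · T^{-k²/2} / √(2π log T)`, `k = r - 1/2`,

(first `X → ∞`, then `T → ∞`), where `a_k` is the arithmetic factor of the `k`-th moment and `κ₁`, `κ₂` do not depend on
`k`, `a`, `b`. For `k > 0` and `c > 0` the proportion of the curves with `P_T(E) ≥ c T^{1/2 + k}` is asymptotically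
`a_k κ₁^k κ₂^{k²} c^{-k} / k · T^{-k²/2} / √(2π log T)`, and similarly for `P_T(E) ≤ c T^{1/2 + k}` and `k < 0`. So for
the curves which look like curves of rank at least `2` at the level `T` the order is `T^{-9/8} (log T)^{-1/2}`; both for
the curves which look like rank `0` and for those which look like rank `1` it is `T^{-1/8} (log T)^{-1/2}`, with an
explicit ratio of the constants; typical curves look like rank `1/2`.

The proof is by mod-Gaussian convergence (part E): the complex moments of `P_T(E)` of the exponents `z = k + iξ` are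
asymptotically `G(z) T^{z/2 + z²/2}`, uniformly for bounded `ξ`, with a continuous function `G`,
`G(k) = a_k κ₁^k κ₂^{k²}` for real `k`; then a local limit lemma (library, `Pool.Agent.N748.MG.LLT`) is applied to the
laws of `log P_T(E) - (k + 1/2) log T`, tilted by `P_T(E)^k`. New here: the independence of complex local functions over
the family, the complex moments, locally uniformly in the exponent, and their transfer to the family. General form, for
any family with independent local functions: `Pool.Agent.KS6_59.ELD.main`.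
-/

set_option autoImplicit false

open Filter Topology MeasureTheory

namespace Pool.Agent.Results.MP_788af2_nt.ExactLargeDeviations

/-- The pairs `(A, B)` of the problem: `4A³ + 27B² ≠ 0`, and no prime `p` satisfies `p⁴ ∣ A` and `p⁶ ∣ B`. -/
def IsMinimal (A B : ℤ) : Prop :=
  4 * A ^ 3 + 27 * B ^ 2 ≠ 0 ∧ ∀ p : ℕ, p.Prime → ¬ ((p : ℤ) ^ 4 ∣ A ∧ (p : ℤ) ^ 6 ∣ B)

/-- The height `max(4|A|³, 27B²)`. -/
def height (A B : ℤ) : ℤ := max (4 * |A| ^ 3) (27 * B ^ 2)

/-- The minimal pairs of height at most `X`; one for every elliptic curve over `ℚ` of height at most `X`. -/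
noncomputable def family (X : ℕ) : Finset (ℤ × ℤ) :=
  open Classical in (Finset.Icc (-(X : ℤ)) X ×ˢ Finset.Icc (-(X : ℤ)) X).filter
    fun E => IsMinimal E.1 E.2 ∧ height E.1 E.2 ≤ X

/-- The proportion of the curves of height at most `X` with the property `S`. -/
noncomputable def proportion (X : ℕ) (S : ℤ × ℤ → Prop) : ℝ :=
  (({E : ℤ × ℤ | E ∈ family X ∧ S E}.ncard : ℕ) : ℝ) / (family X).card

/-- The number of points of `y² = x³ + A x + B` modulo `p`, with the point at infinity. -/
noncomputable def points (A B : ℤ) (p : ℕ) : ℕ :=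
  Nat.card {P : ZMod p × ZMod p // P.2 ^ 2 = P.1 ^ 3 + (A : ZMod p) * P.1 + (B : ZMod p)} + 1

/-- `N_p / p` if `p` does not divide `6 (4A³ + 27B²)`, and `1` otherwise. -/
noncomputable def ratio (A B : ℤ) (p : ℕ) : ℝ :=
  open Classical in if (p : ℤ) ∣ 6 * (4 * A ^ 3 + 27 * B ^ 2) then 1 else (points A B p : ℝ) / p

/-- The Euler factor of `L(E, s)` at `p`, if `p` does not divide `6 (4A³ + 27B²)`, and `1` otherwise. -/
noncomputable def eulerFactor (A B : ℤ) (s : ℂ) (p : Nat.Primes) : ℂ :=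
  open Classical in if ((p : ℕ) : ℤ) ∣ 6 * (4 * A ^ 3 + 27 * B ^ 2) then 1 else
    (1 - (((p : ℕ) : ℂ) + 1 - points A B p) * ((p : ℕ) : ℂ) ^ (-s) + ((p : ℕ) : ℂ) ^ (1 - 2 * s))⁻¹

/-- The weight `cos(γu) / Γ(1 + u)`. -/
noncomputable def weight (γ u : ℝ) : ℝ := Real.cos (γ * u) / Real.Gamma (1 + u)

/-- `P_T(E)`. -/
noncomputable def P (γ T : ℝ) (E : ℤ × ℤ) : ℝ :=
  ∏' p : Nat.Primes, ratio E.1 E.2 p ^ weight γ (Real.log (p : ℕ) / T)

/-- The mean of `(N_p / p)^x` over the `p`-adic minimal pairs: the pairs with `p⁴ ∣ A` and `p⁶ ∣ B`, of measure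
`p⁻¹⁰`, are removed. -/
noncomputable def localMean (p : Nat.Primes) (x : ℝ) : ℝ :=
  ((∑ a ∈ Finset.range p, ∑ b ∈ Finset.range p, ratio (a : ℤ) (b : ℤ) p ^ x) / (p : ℕ) ^ 2 - 1 / (p : ℕ) ^ 10) /
    (1 - 1 / (p : ℕ) ^ 10)

/-- The factor of `a_k` at `p`. -/
noncomputable def arithFactor (k : ℝ) (p : Nat.Primes) : ℝ :=
  (1 - (((p : ℕ) : ℝ))⁻¹) ^ (k * (k + 1) / 2) * localMean p k

/-- The arithmetic factor `a_k`. -/
noncomputable def arith (k : ℝ) : ℝ := ∏' p : Nat.Primes, arithFactor k p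

open Pool.Agent.X278.AV Pool.Agent.N397.AV Pool.Agent.KS6_59.ELD

/-! ### translation to the definitions of the library -/

theorem family_lib (X : ℕ) : family X = MomentsOverAllCurves.family X := rfl

theorem P_lib : P = MomentsOverAllCurves.P := rfl

theorem arith_lib : arith = MomentsOverAllCurves.arith := rfl

theorem eulerFactor_lib : eulerFactor = MomentsOverAllCurves.eulerFactor := rfl

theorem weight_lib : weight = MomentsOverAllCurves.weight := rfl

theorem ratio_lib : ratio = MomentsOverAllCurves.ratio := rfl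

/-- the local functions -/
noncomputable def fE (p : Nat.Primes) (x : Fin 2 → ℤ) : ℝ := fH p (red (p : ℕ) x)

theorem P_exp (γ : ℝ) {T : ℝ} (hT : 0 < T) (x : Fin 2 → ℤ) :
    P γ T (finTwoArrowEquiv ℤ x) = Real.exp (Sm fE γ T x) := by
  rw [P_lib, MomentsOverAllCurves.P_eq _ γ hT]
  congr 1
  unfold Sm
  refine tsum_congr fun p => ?_
  rw [MomentsOverAllCurves.log_ratio', Equiv.symm_apply_apply]
  rfl

/-- the system of the local functions of all elliptic curves -/
theorem loc_E : Loc (fun X => Fam eH ZH (abH X)) fE (LD (∑ j, eH j) fH) (fun p => 1 / 2 * (((p : ℕ) : ℝ))⁻¹)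
    (fun p => 1 / 2 * (((p : ℕ) : ℝ))⁻¹) 100 :=
  loc_data dataH fH_zero (by norm_num) fH_size (κ := 1 / 2) (v := 1) (C := 130000) (by norm_num)
    (fun p => (exH p).trans (by gcongr; norm_num)) exH2

theorem wts_E (γ : ℝ) : ∃ c₁ c₂ : ℝ, Wts (fun p => 1 / 2 * (((p : ℕ) : ℝ))⁻¹) (fun p => 1 / 2 * (((p : ℕ) : ℝ))⁻¹) γ
    (1 / 2) (1 / 2) c₁ c₂ := wts_data γ (1 / 2) 1

open Classical in
theorem prop_eq (X : ℕ) (S : ℤ × ℤ → Prop) :
    proportion X S = (((Fam eH ZH (abH X)).filter fun x => S (finTwoArrowEquiv ℤ x)).card : ℝ) /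
      (Fam eH ZH (abH X)).card := by
  unfold proportion
  have h1 : {E : ℤ × ℤ | E ∈ family X ∧ S E} = (((family X).filter S : Finset (ℤ × ℤ)) : Set (ℤ × ℤ)) := by
    ext E
    simp
  rw [h1, Set.ncard_coe_finset, family_lib, MomentsOverAllCurves.family_eq, Finset.card_map, Finset.filter_map,
    Finset.card_map]
  rfl

/-- the complex moments over the family -/
noncomputable def moment (γ T : ℝ) (z : ℂ) (X : ℕ) : ℂ :=
  (∑ E ∈ family X, ((P γ T E : ℝ) : ℂ) ^ z) / (family X).card

theorem moment_eq (γ : ℝ) {T : ℝ} (hT : 0 < T) (z : ℂ) (X : ℕ) :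
    moment γ T z X = meanC (Fam eH ZH (abH X)) (fun x => Complex.exp (z * Sm fE γ T x)) := by
  unfold moment meanC
  rw [family_lib, MomentsOverAllCurves.family_eq, Finset.sum_map, Finset.card_map]
  congr 1
  refine Finset.sum_congr rfl fun x _ => ?_
  have h1 : ((finTwoArrowEquiv ℤ).toEmbedding x) = finTwoArrowEquiv ℤ x := rfl
  rw [h1, P_exp γ hT, Complex.cpow_def_of_ne_zero (by exact_mod_cast (Real.exp_pos _).ne'), ← Complex.ofReal_log (Real.exp_pos _).le,
    Real.log_exp, mul_comm]

/-- **The exact proportion of the elliptic curves whose Birch and Swinnerton-Dyer product looks like rank `r`.** -/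
theorem result (γ : ℝ) (hγ : Real.pi / 2 < γ) : ∃ κ₁ κ₂ : ℝ, 0 < κ₁ ∧ 0 < κ₂ ∧
    -- A. the products are defined, and the order of vanishing of a single curve is the exponent of `T`
    (∀ (E : ℤ × ℤ) (T : ℝ), 0 < T → Summable fun p : Nat.Primes =>
      |weight γ (Real.log (p : ℕ) / T) * Real.log (ratio E.1 E.2 p)|) ∧
    (∀ E : ℤ × ℤ, 4 * E.1 ^ 3 + 27 * E.2 ^ 2 ≠ 0 → ∀ F : ℂ → ℂ,
      (∀ s : ℂ, 3 / 2 < s.re → HasProd (eulerFactor E.1 E.2 s) (F s)) →
      (∀ x : ℝ, 1 ≤ x → x ≤ 3 / 2 → MeromorphicAt F (x : ℂ)) →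
      ∃ m : ℤ, meromorphicOrderAt F 1 = m ∧ ∃ c C : ℝ, 0 < c ∧ ∀ᶠ T : ℝ in atTop,
        c * T ^ m ≤ P γ T E ∧ P γ T E ≤ C * T ^ m) ∧
    -- the arithmetic factors
    (∀ k : ℝ, (Summable fun p : Nat.Primes => Real.log (arithFactor k p)) ∧ 0 < arith k) ∧
    -- B. the curves with `P_T(E)` within constant factors of `T^(k + 1/2)`
    (∀ k a b : ℝ, 0 < a → a < b → ∀ ε : ℝ, 0 < ε → ∀ᶠ T : ℝ in atTop, ∀ᶠ X : ℕ in atTop,
      |√(2 * Real.pi * Real.log T) * T ^ (k ^ 2 / 2) *
          proportion X (fun E => a * T ^ (k + 1 / 2) ≤ P γ T E ∧ P γ T E ≤ b * T ^ (k + 1 / 2)) -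
        arith k * κ₁ ^ k * κ₂ ^ (k ^ 2) * ∫ t in a..b, t ^ (-k - 1)| ≤ ε) ∧
    -- C. the curves with large `P_T(E)`
    (∀ k c : ℝ, 0 < k → 0 < c → ∀ ε : ℝ, 0 < ε → ∀ᶠ T : ℝ in atTop, ∀ᶠ X : ℕ in atTop,
      |√(2 * Real.pi * Real.log T) * T ^ (k ^ 2 / 2) * proportion X (fun E => c * T ^ (k + 1 / 2) ≤ P γ T E) -
        arith k * κ₁ ^ k * κ₂ ^ (k ^ 2) * (c ^ (-k) / k)| ≤ ε) ∧
    -- D. the curves with small `P_T(E)`
    (∀ k c : ℝ, k < 0 → 0 < c → ∀ ε : ℝ, 0 < ε → ∀ᶠ T : ℝ in atTop, ∀ᶠ X : ℕ in atTop,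
      |√(2 * Real.pi * Real.log T) * T ^ (k ^ 2 / 2) * proportion X (fun E => P γ T E ≤ c * T ^ (k + 1 / 2)) -
        arith k * κ₁ ^ k * κ₂ ^ (k ^ 2) * (c ^ (-k) / (-k))| ≤ ε) ∧
    -- E. the complex moments
    (∃ (M : ℝ → ℂ → ℂ) (G : ℂ → ℂ), Continuous G ∧ (∀ k : ℝ, G k = (arith k * κ₁ ^ k * κ₂ ^ (k ^ 2) : ℝ)) ∧
      (∀ T : ℝ, 0 < T → ∀ z : ℂ, Tendsto (moment γ T z) atTop (𝓝 (M T z))) ∧
      ∀ k R ε : ℝ, 0 < ε → ∀ᶠ T : ℝ in atTop, ∀ ξ : ℝ, |ξ| ≤ R →
        ‖M T (k + ξ * Complex.I) * Complex.exp (-(((k + ξ * Complex.I) / 2 + (k + ξ * Complex.I) ^ 2 / 2) * Real.log T)) -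
          G (k + ξ * Complex.I)‖ ≤ ε) := by
  classical
  obtain ⟨κ₁, κ₂, hκ₁, hκ₂, hA0, hA, hB, hC, -⟩ := MomentsOverAllCurves.result γ hγ
  obtain ⟨c₁, c₂, hW⟩ := wts_E γ
  set G : ℂ → ℂ := Gf (LD (∑ j, eH j) fH) (fun p => 1 / 2 * (((p : ℕ) : ℝ))⁻¹) (fun p => 1 / 2 * (((p : ℕ) : ℝ))⁻¹) c₁ c₂ with hG
  set g : ℝ → ℝ := fun k => arith k * κ₁ ^ k * κ₂ ^ (k ^ 2) with hg
  have hgpos : ∀ k, 0 < g k := fun k => by
    have h1 : 0 < arith k := (hC k).2.1
    have h2 := Real.rpow_pos_of_pos hκ₁ k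
    have h3 := Real.rpow_pos_of_pos hκ₂ (k ^ 2)
    exact mul_pos (mul_pos h1 h2) h3
  have hGg : ∀ k : ℝ, G (k : ℂ) = (g k : ℂ) := by
    intro k
    -- the moments of real exponent
    have h1 : ∀ T : ℝ, 0 < T → Mz (LD (∑ j, eH j) fH) γ T (k : ℂ) = ((MomentsOverAllCurves.M γ k T : ℝ) : ℂ) := by
      intro T hT
      refine tendsto_nhds_unique (mean_lim loc_E γ hT (k : ℂ)) ?_
      have h2 := (Complex.continuous_ofReal.tendsto _).comp (hB k T hT)
      refine h2.congr fun X => ?_
      simp only [Function.comp_apply]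
      rw [MomentsOverAllCurves.average_eq]
      unfold mean meanC
      push_cast
      congr 1
      refine Finset.sum_congr rfl fun x _ => ?_
      rw [← P_lib, P_exp γ hT, ← Real.exp_mul, mul_comm (Sm fE γ T x)]
      push_cast
      rfl
    have h2 := (asym loc_E hW (k : ℂ)).comp (tendsto_id.prodMk (tendsto_const_nhds : Tendsto (fun _ : ℝ => (k : ℂ)) atTop (𝓝 (k : ℂ))))
    have h3 := (Complex.continuous_ofReal.tendsto _).comp (hC k).2.2
    refine tendsto_nhds_unique h2 (h3.congr' ?_)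
    filter_upwards [eventually_gt_atTop (0 : ℝ)] with T hT
    simp only [Function.comp_apply, id]
    rw [h1 T hT, Real.rpow_def_of_pos hT]
    push_cast
    rw [div_eq_mul_inv, ← Complex.exp_neg]
    congr 2
    ring
  have hA1 : (1 / 2 : ℝ) + 2 * (1 / 2) = 1 / 2 + 1 := by norm_num
  -- the general law, in terms of the set of the values of the centred logarithm
  have key : ∀ (k : ℝ) (U : Set ℝ) (S : Finset ℝ) (Pr : ℝ → ℤ × ℤ → Prop), MeasurableSet U →
      (∀ x, x ∉ S → ContinuousAt (U.indicator fun x => Real.exp (-(k * x))) x) →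
      (∃ C : ℝ, ∀ x ∈ U, Real.exp (-(k * x)) * (1 + x ^ 2) ≤ C) →
      (∀ T : ℝ, 0 < T → ∀ x : Fin 2 → ℤ, Pr T (finTwoArrowEquiv ℤ x) ↔ Sm fE γ T x - (k + 1 / 2) * Real.log T ∈ U) →
      ∀ I : ℝ, ∫ x in U, Real.exp (-(k * x)) = I → ∀ ε : ℝ, 0 < ε → ∀ᶠ T : ℝ in atTop, ∀ᶠ X : ℕ in atTop,
      |√(2 * Real.pi * Real.log T) * T ^ (k ^ 2 / 2) * proportion X (Pr T) - g k * I| ≤ ε := by
    intro k U S Pr hU hS hb hPr I hI ε hε
    have h1 := main_set loc_E hW (by norm_num) (hgpos k) (hGg k) U S hU hS hb hε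
    filter_upwards [h1, eventually_gt_atTop (0 : ℝ)] with T h2 hT
    filter_upwards [h2] with X h3
    rw [hI] at h3
    refine le_trans (le_of_eq ?_) h3
    congr 2
    rw [prop_eq]
    have e1 : 4 * Real.pi * (1 / 2) * Real.log T = 2 * Real.pi * Real.log T := by ring
    have e2 : T ^ (k ^ 2 / 2) = Real.exp (1 / 2 * k ^ 2 * Real.log T) := by
      rw [Real.rpow_def_of_pos hT]
      congr 1
      ring
    rw [e1, e2, mul_assoc]
    congr 3
    congr 2
    refine Finset.filter_congr fun x _ => ?_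
    rw [hPr T hT]
    unfold Yc
    have e3 : (1 / 2 + 2 * (1 / 2) * k : ℝ) = k + 1 / 2 := by ring
    rw [e3]
  have hpow : ∀ (T : ℝ), 0 < T → ∀ c : ℝ, 0 < c → ∀ s : ℝ, c * T ^ s = Real.exp (Real.log c + s * Real.log T) := by
    intro T hT c hc s
    rw [Real.exp_add, Real.exp_log hc, Real.rpow_def_of_pos hT, mul_comm s]
  -- a bound for `exp (-k x) (1 + x²)`
  have hbd : ∀ k : ℝ, 0 < k → ∀ x : ℝ, 0 ≤ x → Real.exp (-(k * x)) * (1 + x ^ 2) ≤ 1 + 2 / k ^ 2 := by
    intro k hk x hx
    have h1 : (k * x) ^ 2 / 2 ≤ Real.exp (k * x) := by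
      have h2 := Real.quadratic_le_exp_of_nonneg (mul_nonneg hk.le hx)
      have h3 := mul_nonneg hk.le hx
      linarith
    have h2 : 0 < Real.exp (k * x) := Real.exp_pos _
    have h4 : 1 ≤ Real.exp (k * x) := Real.one_le_exp (mul_nonneg hk.le hx)
    rw [Real.exp_neg, inv_mul_le_iff₀ h2]
    have h3 : x ^ 2 ≤ 2 / k ^ 2 * Real.exp (k * x) := by
      rw [div_mul_eq_mul_div, le_div_iff₀ (by positivity)]
      nlinarith
    nlinarith
  refine ⟨κ₁, κ₂, hκ₁, hκ₂, hA0, hA, fun k => ⟨(hC k).1, (hC k).2.1⟩, ?_, ?_, ?_, ?_⟩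
  · intro k a b ha hab ε hε
    have hb : 0 < b := ha.trans hab
    have hlog : Real.log a < Real.log b := Real.log_lt_log ha hab
    refine key k (Set.Icc (Real.log a) (Real.log b)) {Real.log a, Real.log b}
      (fun T E => a * T ^ (k + 1 / 2) ≤ P γ T E ∧ P γ T E ≤ b * T ^ (k + 1 / 2)) measurableSet_Icc ?_ ?_ ?_ _ ?_ ε hε
    · intro x hx
      simp only [Finset.mem_insert, Finset.mem_singleton, not_or] at hx
      rcases lt_or_ge x (Real.log a) with h | h
      · refine ContinuousAt.congr (f := fun _ => (0 : ℝ)) continuousAt_const ?_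
        filter_upwards [Iio_mem_nhds h] with y hy
        rw [Set.indicator_of_notMem]
        intro h'
        exact absurd h'.1 (not_le.2 hy)
      · rcases lt_or_ge (Real.log b) x with h' | h'
        · refine ContinuousAt.congr (f := fun _ => (0 : ℝ)) continuousAt_const ?_
          filter_upwards [Ioi_mem_nhds h'] with y hy
          rw [Set.indicator_of_notMem]
          intro h''
          exact absurd h''.2 (not_le.2 hy)
        · have h1 : Real.log a < x := lt_of_le_of_ne h (Ne.symm hx.1)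
          have h2 : x < Real.log b := lt_of_le_of_ne h' hx.2
          refine ContinuousAt.congr (f := fun x => Real.exp (-(k * x))) (by fun_prop) ?_
          filter_upwards [Ioo_mem_nhds h1 h2] with y hy
          rw [Set.indicator_of_mem (Set.mem_Icc.2 ⟨hy.1.le, hy.2.le⟩)]
    · obtain ⟨C, hC'⟩ := isCompact_Icc.exists_bound_of_continuousOn (s := Set.Icc (Real.log a) (Real.log b))
        (f := fun x : ℝ => Real.exp (-(k * x)) * (1 + x ^ 2)) (by fun_prop)
      exact ⟨C, fun x hx => (le_abs_self _).trans (hC' x hx)⟩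
    · intro T hT x
      rw [P_exp γ hT, hpow T hT a ha, hpow T hT b hb, Real.exp_le_exp, Real.exp_le_exp, Set.mem_Icc]
      constructor
      · rintro ⟨h1, h2⟩
        constructor <;> linarith
      · rintro ⟨h1, h2⟩
        constructor <;> linarith
    · rw [integral_Icc_eq_integral_Ioc, ← intervalIntegral.integral_of_le hlog.le]
      rcases eq_or_ne k 0 with hk | hk
      · subst hk
        simp only [zero_mul, neg_zero, Real.exp_zero, zero_sub]
        rw [intervalIntegral.integral_const, smul_eq_mul, mul_one]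
        have h1 : ∫ t in a..b, t ^ (-1 : ℝ) = ∫ t in a..b, t⁻¹ := by
          refine intervalIntegral.integral_congr fun t _ => ?_
          rw [Real.rpow_neg_one]
        rw [h1, integral_inv_of_pos ha hb, Real.log_div hb.ne' ha.ne']
      · have h1 : ∫ x in Real.log a..Real.log b, Real.exp (-(k * x)) = ∫ x in Real.log a..Real.log b, Real.exp ((-k) * x) := by
          refine intervalIntegral.integral_congr fun x _ => ?_
          congr 1
          ring
        have h2 : (-k) ≠ 0 := neg_ne_zero.2 hk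
        rw [h1, intervalIntegral.integral_comp_mul_left (fun x => Real.exp x) h2, integral_exp, integral_rpow]
        · have h3 : -k - 1 + 1 = -k := by ring
          rw [h3, smul_eq_mul, Real.rpow_def_of_pos hb, Real.rpow_def_of_pos ha]
          field_simp
        · right
          refine ⟨fun h => hk (by linarith), ?_⟩
          rw [Set.uIcc_of_le hab.le]
          intro h
          exact absurd h.1 (not_le.2 ha)
  · intro k c hk hc ε hε
    refine key k (Set.Ici (Real.log c)) {Real.log c} (fun T E => c * T ^ (k + 1 / 2) ≤ P γ T E) measurableSet_Ici ?_ ?_ ?_ _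
      ?_ ε hε
    · intro x hx
      rw [Finset.mem_singleton] at hx
      rcases lt_or_gt_of_ne hx with h | h
      · refine ContinuousAt.congr (f := fun _ => (0 : ℝ)) continuousAt_const ?_
        filter_upwards [Iio_mem_nhds h] with y hy
        rw [Set.indicator_of_notMem]
        intro h'
        exact absurd (Set.mem_Ici.1 h') (not_le.2 hy)
      · refine ContinuousAt.congr (f := fun x => Real.exp (-(k * x))) (by fun_prop) ?_
        filter_upwards [Ioi_mem_nhds h] with y hy
        rw [Set.indicator_of_mem (Set.mem_Ici.2 (le_of_lt hy))]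
    · obtain ⟨C, hC'⟩ := isCompact_Icc.exists_bound_of_continuousOn (s := Set.Icc (Real.log c) 0)
        (f := fun x : ℝ => Real.exp (-(k * x)) * (1 + x ^ 2)) (by fun_prop)
      refine ⟨max C (1 + 2 / k ^ 2), fun x hx => ?_⟩
      rcases le_or_gt x 0 with h | h
      · exact ((le_abs_self _).trans (hC' x ⟨Set.mem_Ici.1 hx, h⟩)).trans (le_max_left _ _)
      · exact (hbd k hk x h.le).trans (le_max_right _ _)
    · intro T hT x
      rw [P_exp γ hT, hpow T hT c hc, Real.exp_le_exp, Set.mem_Ici]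
      constructor <;> intro h <;> linarith
    · have h1 : ∫ x in Set.Ici (Real.log c), Real.exp (-(k * x)) = ∫ x in Set.Ioi (Real.log c), Real.exp ((-k) * x) := by
        rw [integral_Ici_eq_integral_Ioi]
        congr 1
        funext x
        congr 1
        ring
      rw [h1, integral_exp_mul_Ioi (by linarith : -k < 0), Real.rpow_def_of_pos hc]
      have e1 : -k * Real.log c = Real.log c * -k := by ring
      rw [e1]
      have hk0 : k ≠ 0 := hk.ne'
      field_simp
  · intro k c hk hc ε hε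
    refine key k (Set.Iic (Real.log c)) {Real.log c} (fun T E => P γ T E ≤ c * T ^ (k + 1 / 2)) measurableSet_Iic ?_ ?_ ?_ _
      ?_ ε hε
    · intro x hx
      rw [Finset.mem_singleton] at hx
      rcases lt_or_gt_of_ne hx with h | h
      · refine ContinuousAt.congr (f := fun x => Real.exp (-(k * x))) (by fun_prop) ?_
        filter_upwards [Iio_mem_nhds h] with y hy
        rw [Set.indicator_of_mem (Set.mem_Iic.2 (le_of_lt hy))]
      · refine ContinuousAt.congr (f := fun _ => (0 : ℝ)) continuousAt_const ?_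
        filter_upwards [Ioi_mem_nhds h] with y hy
        rw [Set.indicator_of_notMem]
        intro h'
        exact absurd (Set.mem_Iic.1 h') (not_le.2 hy)
    · obtain ⟨C, hC'⟩ := isCompact_Icc.exists_bound_of_continuousOn (s := Set.Icc 0 (Real.log c))
        (f := fun x : ℝ => Real.exp (-(k * x)) * (1 + x ^ 2)) (by fun_prop)
      refine ⟨max C (1 + 2 / (-k) ^ 2), fun x hx => ?_⟩
      rcases le_or_gt 0 x with h | h
      · exact ((le_abs_self _).trans (hC' x ⟨h, Set.mem_Iic.1 hx⟩)).trans (le_max_left _ _)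
      · have h1 := hbd (-k) (by linarith) (-x) (by linarith)
        have e1 : -(-k * -x) = -(k * x) := by ring
        rw [e1, neg_sq] at h1
        exact h1.trans (le_max_right _ _)
    · intro T hT x
      rw [P_exp γ hT, hpow T hT c hc, Real.exp_le_exp, Set.mem_Iic]
      constructor <;> intro h <;> linarith
    · have h1 : ∫ x in Set.Iic (Real.log c), Real.exp (-(k * x)) = ∫ x in Set.Iic (Real.log c), Real.exp ((-k) * x) := by
        congr 1
        funext x
        congr 1
        ring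
      rw [h1, integral_exp_mul_Iic (by linarith : 0 < -k), Real.rpow_def_of_pos hc]
      congr 2
      ring
  · refine ⟨fun T z => Mz (LD (∑ j, eH j) fH) γ T z, G, Gf_cont loc_E c₁ c₂, hGg, fun T hT z => ?_, fun k R ε hε => ?_⟩
    · exact (mean_lim loc_E γ hT z).congr fun X => (moment_eq γ hT z X).symm
    · filter_upwards [asym_unif loc_E hW k R hε] with T hT ξ hξ
      refine le_trans (le_of_eq ?_) (hT ξ hξ)
      congr 4
      push_cast
      ring

end Pool.Agent.Results.MP_788af2_nt.ExactLargeDeviations
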